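import Pool.Agent.T2H41.RJ

/-!
# Nonvanishing and abundance for nondegenerate pairs with real boundaries

`(X, B)` is a projective pair of dimension `n ≥ 1` with a real boundary `B = ∑ i, t i * Δ i`, where the
`t i ≥ 0` are real numbers with the sum `1`, and the rational pairs `(X, Δ i)` are commensurable, by one
finite correspondence, with pairs `(X₀, Δ₀ i)`, where `X₀` is an irreducible component, of dimension `n`,
of the set of the common zeros of `q` Laurent polynomials `f l` in the torus `(ℂ^*)^(n + q)`; `Δ₀ i` has
the multiplicities `c i j ∈ [0, 1]` along the divisors `h j = 0` and `1 - A i v` along the divisors at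
infinity with the vector `v` of the orders of the coordinates, where `A i` is a weight
(`T2H07.IsRealNondegeneratePair`). The system is nondegenerate: the logarithmic gradients of the initial
parts of the `f l` and of the `h j` are linearly independent, as for generic coefficients and arbitrary
Newton polytopes. The coefficients `c i j` lie in one cell.

**Theorem.** If `K_X + B` is pseudoeffective, then `κ_ι (K_X + B) = κ_σ (K_X + B) ≥ 0`: there is an
effective real divisor `E` with `K_X + B ~_ℝ E`, and for all such `E` the Iitaka dimension and the
numerical dimension (the growth of `h⁰ (⌊m E⌋)` and of `h⁰ (⌊m E + A⌋)`) have one and the same value `d`.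

For rational `B` this is the main theorem of the library `R885` of the starting repository, and for real
`B` with `K_X + B` effective it is `MP_badc2d_ag.NondegenerateEffectiveRealPairs`. What is new here is
that `K_X + B` is effective if it is pseudoeffective. A real boundary is a limit of rational boundaries
for which `K + B'` is not pseudoeffective in general, and the effective divisors for the rational
boundaries `B' ≥ B` could degenerate in the limit. Proof: on `X₀` we replace `B` by rational boundaries
`B' ≥ B` with `B' → B` (smaller weights). For a rational boundary the elimination procedure of `R885`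
ends with a system of Laurent equations for which the polytope of the exponents `u` such that the
canonical form times the monomial `x ^ u` is a section is nonempty. The steps of the elimination depend
only on the signs of finitely many rational linear forms in the parameters `t` of the boundary, so that
there are only finitely many final systems for all rational boundaries in the family
(`T2H41.RA.tree`). So one of them occurs for infinitely many `B' → B`, the exponents `u` are bounded,
and a limit of the exponents gives an effective real divisor for `B` (`T2H41.RA.limL`). The effective
divisor descends to `X` by norms, and pseudoeffectivity passes from `X` to `X₀` by the log discrepancies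
of the rational pairs `(X, Δ i)`.

For a klt pair `(X, B)` with `K_X + B` nef, `κ_ι = κ_σ` implies that `K_X + B` is semiample
(Kawamata, Gongyo-Lehmann; this is not formalised here).

The language of the library is used: `X` is given by the homogeneous coordinates `y` of its generic
point, the prime divisors of `X` are places `P` of the function field `K`.
-/

set_option autoImplicit false

open FF Filter Pool.Agent Pool.Agent.W602.GT Pool.Agent.W603.LV Pool.Agent.Y172 Pool.Agent.Y191

namespace Pool.Agent.Results.MP_e23cd6_ag.PseudoeffectiveRealPairs

section

variable {K : Type} [Field K] [Algebra ℂ K] {N : ℕ}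

/-- `ω` is a section of `m K_X + ⌊D⌋` for the real divisor `D`: an `m`-canonical form with order at
least `- D P` along all prime divisors `P` of `X`. -/
def IsRealSection (y : Fin (N + 1) → K) (n m : ℕ) (D : Place ℂ K → ℝ)
    (ω : (Fin n → Derivation ℂ K K) → K) : Prop :=
  IsPluri m ω ∧ ∀ P, IsPrimeDivisor y P → ∀ E : Fin n → Derivation ℂ K K, (∀ i, DerReg P (E i)) →
    ω E = 0 ∨ -(D P) ≤ P.ord (ω E)

/-- The dimension of the space of the sections of `m K_X + ⌊D⌋`. -/
noncomputable def h0Real (y : Fin (N + 1) → K) (n m : ℕ) (D : Place ℂ K → ℝ) : ℕ :=
  Module.finrank ℂ (Submodule.span ℂ {ω | IsRealSection y n m D ω})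

/-- `K_X + B` is pseudoeffective: for some effective real divisor `H` there are arbitrarily large `m`
such that `⌊m (K_X + B) + H⌋` has a nonzero section. -/
def Pseudoeffective (y : Fin (N + 1) → K) (n : ℕ) (B : Place ℂ K → ℝ) : Prop :=
  ∃ H, T2H07.EffR y H ∧ ∀ M : ℕ, ∃ m, M ≤ m ∧ h0Real y n m (m • B + H) ≠ 0

end

/-- **Nonvanishing and abundance.** Let `(X, B)` be a projective pair of dimension `n ≥ 1` with a real
boundary `B`, commensurable with a nondegenerate pair with real multiplicities, such that `K_X + B` is
pseudoeffective. Then there is `d ≤ n` such that `K_X + B` is linearly equivalent over `ℝ` to an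
effective real divisor, and `κ(E) = κ_σ(E) = d` for all effective real divisors `E` which are linearly
equivalent over `ℝ` to `K_X + B`. -/
theorem result {K : Type} [Field K] [Algebra ℂ K] {N n : ℕ} (hn : 1 ≤ n) {y : Fin (N + 1) → K}
    {B : Place ℂ K → ℝ} (hB : T2H07.IsRealNondegeneratePair y n B)
    (hps : Pseudoeffective y n B) :
    ∃ d : ℕ, d ≤ n ∧ (∃ E, T2H07.EffR y E ∧ T2H07.RLin y n B E) ∧
      ∀ E, T2H07.EffR y E → T2H07.RLin y n B E → T2H07.iitakaDim y E = (d : WithBot ℕ) ∧
        ∀ A, T2H07.EffR y A → T2H07.numDim y E A = (d : EReal) := by
  obtain ⟨H, hH, hps⟩ := hps
  obtain ⟨h1, d, hd, h2⟩ := T2H41.RA.main_real hn hB (H := H) hH hps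
  exact ⟨d, hd, h1, h2⟩

end Pool.Agent.Results.MP_e23cd6_ag.PseudoeffectiveRealPairs
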