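import Pool.Agent.T2H07.DrC

/-!
# Nef log canonical divisors and dominant rational self-maps

Let `(X, Δ)` be a projective log canonical (for instance klt) pair of dimension `n` with rational
boundary such that `K_X + Δ` is nef, and let `f : X ⇢ X` be a dominant rational map, of any
topological degree, such that `f^* (K_X + Δ) ≤ K_X + Δ` up to `ℚ`-linear equivalence. The largest
dynamical degree of `f` is attained by at least `ν (K_X + Δ) + 1` consecutive dynamical degrees. Hence
`κ (K_X + Δ) = ν (K_X + Δ) = k`, so that `K_X + Δ` is semiample if `(X, Δ)` is klt, if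
`κ (K_X + Δ) ≥ k` and if the largest dynamical degree of `f` is not attained by `k + 2` consecutive
dynamical degrees; and `K_X + Δ` is numerically trivial if `f` is cohomologically hyperbolic, that is,
if one of the dynamical degrees is larger than all the others.

The variety is given by the homogeneous coordinates `y` of its generic point (`NormalModel`), the
rational map by the endomorphism `φ = f^*` of the function field `K`. `LogCanonical` says that
`(X, Δ)` is log canonical, `LogNef` that `K_X + Δ` is nef, `PullBackSelfLe y n Δ φ` that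
`f^* (K_X + Δ) ≤ K_X + Δ + (1 / r) div h` in codimension one, for some `r` and `h`,
`DynDegree y n φ p δ` that `δ` is the `p`-th dynamical degree, and `NumDimLt y n Δ j` that
`ν (K_X + Δ) < j`: for large `m` and small `b / m` the maps given by the sections of
`m (K_X + Δ) + b A` and by `n - j` pencils of hyperplane sections have degree at most `ε m ^ j`; for
nef `K_X + Δ` this means that `(K_X + Δ) ^ j · H ^ (n - j) = 0`. `LogKodairaGe` says
`κ (K_X + Δ) ≥ k`, `DimensionsEq` that `κ (K_X + Δ) = ν (K_X + Δ) = k`.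
-/

set_option autoImplicit false

open FF Pool.Agent.W602.GT Pool.Agent.Y172 Pool.Agent.R887 Pool.Agent.T2H06.DYR
open Pool.Agent.T2H07.Dyn (LogKodairaGe DimensionsEq dims_of_few)
open Pool.Agent.T2H07.Dyr

namespace Pool.Agent.Results.MP_e23cd6_ag.RationalSelfMapsPairs

/-- Let `(X, Δ)` be a projective log canonical pair of dimension `n > 0` such that `K_X + Δ` is nef,
and `f` a dominant rational self-map of `X` with `f^* (K_X + Δ) ≤ K_X + Δ` up to `ℚ`-linear
equivalence. The dynamical degrees `δ 0, ..., δ n` of `f` exist, `δ 0 = 1`, `δ n = deg f`, and if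
`ν (K_X + Δ) ≥ j` then `δ q = δ (q + 1) = ... = δ (q + j)` is the largest dynamical degree for some
`q ≤ n - j`. In particular `κ (K_X + Δ) = ν (K_X + Δ) = k` if `κ (K_X + Δ) ≥ k`, where `k < n`, and
the largest dynamical degree is not attained by `k + 2` consecutive dynamical degrees. If the largest
dynamical degree is attained only once, then `K_X + Δ` is numerically trivial, and the sections
`η ≠ 0` of `m (K_X + Δ)`, `m ≥ 1`, have no zeros. -/
theorem result {K : Type} [Field K] [Algebra ℂ K] {N n : ℕ} {y : Fin (N + 1) → K}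
    (hy : NormalModel y) (hn : Algebra.trdeg ℂ K = n) (hn0 : 0 < n) {Δ : Place ℂ K → ℚ}
    (hΔ : Effective y Δ) (hLC : LogCanonical y n Δ) (hnef : LogNef y n Δ) (φ : K →ₐ[ℂ] K)
    (hφ : PullBackSelfLe y n Δ φ) :
    ∃ δ : ℕ → ℝ, (∀ p ≤ n, 1 ≤ δ p ∧ DynDegree y n φ p (δ p)) ∧ δ 0 = 1 ∧
      δ n = mapDegree φ ∧
      (∀ j ≤ n, ¬ NumDimLt y n Δ j →
        ∃ q, q + j ≤ n ∧ ∀ i ≤ j, ∀ p ≤ n, δ p ≤ δ (q + i)) ∧
      (∀ k < n, LogKodairaGe y n Δ k →
        (¬ ∃ q, q + (k + 1) ≤ n ∧ ∀ i ≤ k + 1, ∀ p ≤ n, δ p ≤ δ (q + i)) →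
          DimensionsEq y n Δ k) ∧
      ((∃ p ≤ n, ∀ q ≤ n, q ≠ p → δ q < δ p) →
        NumDimLt y n Δ 1 ∧ ∀ m : ℕ, 1 ≤ m → ∀ η : (Fin n → Derivation ℂ K K) → K,
          IsSection y n m (m • Δ) η → η ≠ 0 →
            ∀ P, IsPrimeDivisor y P → OrdEq P η (-(m * Δ P))) := by
  obtain ⟨δ, h1, h2, h3, h4⟩ := dynRP hy hn hn0 hΔ hLC hnef hφ
  refine ⟨δ, h1, h2, h3, h4, fun k hk hkod hfew => dims_of_few hy hn h4 hk hkod hfew, ?_⟩
  rintro ⟨p, hp, hmax⟩
  have h5 : NumDimLt y n Δ 1 := by
    by_contra hnd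
    obtain ⟨q, hq, hle⟩ := h4 1 hn0 hnd
    have h6 : q = p := by
      by_contra hne
      have h7 := hmax q (by omega) hne
      have h8 := hle 0 (Nat.zero_le _) p hp
      rw [add_zero] at h8
      linarith
    have h7 := hmax (q + 1) hq (by omega)
    have h8 := hle 1 le_rfl p hp
    linarith
  exact ⟨h5, fun m hm η hη hη0 => nef_trivialP hy hn hn0 h5 hnef hm hη hη0⟩

end Pool.Agent.Results.MP_e23cd6_ag.RationalSelfMapsPairs
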